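import Pool.Agent.Work.PathNormal.C

/-!
# Paths of normal operators: the path theorem
-/

open MeasureTheory
open scoped ComplexOrder InnerProductSpace

namespace Pool.PN

open Pool.FR Pool.FR.FAux

universe v

variable {H : Type v} [NormedAddCommGroup H] [InnerProductSpace ℂ H] [CompleteSpace H]

theorem parts {X Y X' Y' : H →L[ℂ] H} (hX : IsSelfAdjoint X) (hY : IsSelfAdjoint Y)
    (hX' : IsSelfAdjoint X') (hY' : IsSelfAdjoint Y') {δ : ℝ}
    {τ : (H →L[ℂ] H) →ₗ[ℂ] ℂ} (hD : Nuc (NN X' Y' - NN X Y) δ τ) :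
    (∃ τA, Nuc (X' - X) δ τA) ∧ ∃ τB, Nuc (Y' - Y) δ τB := by
  set D := NN X' Y' - NN X Y with hDdef
  have hs : star D = (X' - Complex.I • Y') - (X - Complex.I • Y) := by
    rw [hDdef, star_sub, star_NN hX' hY', star_NN hX hY]
  have e1 : X' - X = (1 / 2 : ℂ) • (D + star D) := by
    rw [hs, hDdef, NN, NN]
    module
  have e2 : Y' - Y = (-Complex.I / 2) • (D + (-1 : ℂ) • star D) := by
    rw [hs, hDdef, NN, NN]
    have h1 : (-Complex.I / 2) * (2 * Complex.I) = 1 := by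
      linear_combination (-1 : ℂ) * Complex.I_mul_I
    have h2 : (X' + Complex.I • Y') - (X + Complex.I • Y) +
        (-1 : ℂ) • ((X' - Complex.I • Y') - (X - Complex.I • Y)) =
        (2 * Complex.I) • (Y' - Y) := by module
    rw [h2, smul_smul, h1, one_smul]
  constructor
  · rw [e1]
    refine ⟨_, ((hD.add hD.star).smul (1 / 2)).mono (le_of_eq ?_)⟩
    norm_num
    ring
  · rw [e2]
    refine ⟨_, ((hD.add (hD.star.smul (-1))).smul (-Complex.I / 2)).mono (le_of_eq ?_)⟩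
    rw [norm_div, norm_neg, norm_neg, Complex.norm_I]
    norm_num
    ring

/-- real part -/
noncomputable def rp (N : H →L[ℂ] H) : H →L[ℂ] H := (realPart N : H →L[ℂ] H)

/-- imaginary part -/
noncomputable def ip (N : H →L[ℂ] H) : H →L[ℂ] H := (imaginaryPart N : H →L[ℂ] H)

theorem NN_rp (N : H →L[ℂ] H) : NN (rp N) (ip N) = N := realPart_add_I_smul_imaginaryPart N

theorem rp_sa (N : H →L[ℂ] H) : IsSelfAdjoint (rp N) := (realPart N).2

theorem ip_sa (N : H →L[ℂ] H) : IsSelfAdjoint (ip N) := (imaginaryPart N).2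

theorem rp_comm {N : H →L[ℂ] H} (hN : IsStarNormal N) : rp N * ip N = ip N * rp N :=
  ((isStarNormal_iff_commute_realPart_imaginaryPart).1 hN).eq

theorem norm_rp (N : H →L[ℂ] H) : ‖rp N‖ ≤ ‖N‖ := by
  have h : rp N = (1 / 2 : ℂ) • (N + star N) := by
    conv_rhs => rw [← NN_rp N, star_NN (rp_sa N) (ip_sa N), NN]
    module
  rw [h, norm_smul]
  have := norm_add_le N (star N)
  rw [norm_star] at this
  norm_num
  linarith

theorem norm_ip (N : H →L[ℂ] H) : ‖ip N‖ ≤ ‖N‖ := by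
  have h : ip N = (-Complex.I / 2 : ℂ) • (N - star N) := by
    conv_rhs => rw [← NN_rp N, star_NN (rp_sa N) (ip_sa N), NN]
    have h1 : (-Complex.I / 2) * (2 * Complex.I) = 1 := by
      linear_combination (-1 : ℂ) * Complex.I_mul_I
    have h2 : (rp N + Complex.I • ip N) - (rp N - Complex.I • ip N) =
        (2 * Complex.I) • ip N := by module
    rw [h2, smul_smul, h1, one_smul]
  rw [h, norm_smul]
  have := norm_sub_le N (star N)
  rw [norm_star] at this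
  rw [norm_div, norm_neg, Complex.norm_I]
  norm_num
  linarith

theorem HasTr.uniq {T : H →L[ℂ] H} {c c' : ℂ} (h : HasTr T c) (h' : HasTr T c') {ι : Type}
    [Countable ι] (e : HilbertBasis ι ℂ H) : c = c' := (h ι e).unique (h' ι e)

theorem HasTr.real {T : H →L[ℂ] H} {c : ℂ} (h : HasTr T c) (hT : IsSelfAdjoint T) {ι : Type}
    [Countable ι] (e : HilbertBasis ι ℂ H) : (c.re : ℂ) = c := by
  have h1 := (h ι e).map (starRingEnd ℂ : ℂ →+* ℂ) Complex.continuous_conj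
  have h2 : HasSum (fun i => inner ℂ (e i) (T (e i))) ((starRingEnd ℂ) c) := by
    refine h1.congr_fun ?_ |> id
    intro i
    simp only [Function.comp]
    rw [inner_conj_symm]
    nth_rewrite 2 [← hT.star_eq]
    rw [ContinuousLinearMap.star_eq_adjoint, ContinuousLinearMap.adjoint_inner_left]
  exact Complex.conj_eq_iff_re.1 (h2.unique (h ι e))

/-- the polynomial of the operator -/
noncomputable def Q (p : MvPolynomial (Fin 2) ℝ) (N : H →L[ℂ] H) : H →L[ℂ] H :=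
  ∑ m ∈ p.support, ((p.coeff m : ℝ) : ℂ) • (rp N ^ (m 0) * ip N ^ (m 1))

/-- hypotheses on a path -/
structure IsPath (P : ℝ → H →L[ℂ] H) (L : ℝ) : Prop where
  nonneg : 0 ≤ L
  normal : ∀ t ∈ Set.Icc (0 : ℝ) 1, IsStarNormal (P t)
  nuc : ∀ s ∈ Set.Icc (0 : ℝ) 1, ∀ t ∈ Set.Icc (0 : ℝ) 1, ∃ τ, Nuc (P t - P s) (L * |t - s|) τ

/-- a bound for everything -/
noncomputable def RR (P : ℝ → H →L[ℂ] H) (L : ℝ) : ℝ := ‖P 0‖ + L + 1

theorem IsPath.norm_lt {P : ℝ → H →L[ℂ] H} {L : ℝ} (h : IsPath P L) {t : ℝ}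
    (ht : t ∈ Set.Icc (0 : ℝ) 1) : ‖P t‖ < RR P L := by
  obtain ⟨τ, h1⟩ := h.nuc 0 ⟨le_rfl, zero_le_one⟩ t ht
  have h2 := h1.norm_le
  have h3 : ‖P t‖ ≤ ‖P 0‖ + ‖P t - P 0‖ := by
    have := norm_add_le (P 0) (P t - P 0)
    rwa [add_sub_cancel] at this
  have h4 : L * |t - 0| ≤ L * 1 := by
    have := h.nonneg
    gcongr
    rw [sub_zero, abs_of_nonneg ht.1]
    exact ht.2
  unfold RR
  linarith

theorem IsPath.step {P : ℝ → H →L[ℂ] H} {L : ℝ} (h : IsPath P L) {s t : ℝ}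
    (hs : s ∈ Set.Icc (0 : ℝ) 1) (ht : t ∈ Set.Icc (0 : ℝ) 1)
    (p : MvPolynomial (Fin 2) ℝ) {K : NNReal}
    (hp : LipschitzOnWith K (fun z : ℂ => MvPolynomial.eval ![z.re, z.im] p)
      (Metric.closedBall 0 (RR P L))) :
    ∃ c : ℂ, HasTr (Q p (P t) - Q p (P s)) c ∧
      ‖c‖ ≤ K * (L * |t - s|) + EC p (RR P L) * (L * |t - s|) ^ 2 := by
  obtain ⟨τ, h1⟩ := h.nuc s hs t ht
  have hR : 1 ≤ RR P L := by
    have := h.nonneg
    have := norm_nonneg (P 0)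
    unfold RR
    linarith
  have n := fun {t : ℝ} (ht : t ∈ Set.Icc (0 : ℝ) 1) => h.norm_lt ht
  obtain ⟨c, h2, h3⟩ := Pool.PN.step (rp_sa (P s)) (ip_sa (P s)) (rp_sa (P t)) (ip_sa (P t))
    (rp_comm (h.normal s hs)) (δ := L * |t - s|) (R := RR P L) (τ := τ)
    (by rw [NN_rp, NN_rp]; exact h1) hR
    ((norm_rp _).trans (n hs).le) ((norm_ip _).trans (n hs).le)
    ((norm_rp _).trans (n ht).le) ((norm_ip _).trans (n ht).le) (by rw [NN_rp]; exact n hs) p hp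
  refine ⟨c, ?_, h3⟩
  have e1 : Q p (P t) - Q p (P s) = ∑ m ∈ p.support, ((p.coeff m : ℝ) : ℂ) •
      (rp (P t) ^ (m 0) * ip (P t) ^ (m 1) - rp (P s) ^ (m 0) * ip (P s) ^ (m 1)) := by
    unfold Q
    rw [← Finset.sum_sub_distrib]
    exact Finset.sum_congr rfl fun m _ => (smul_sub _ _ _).symm
  rw [e1]
  exact h2

theorem HasTr.finsum {κ : Type} (s : Finset κ) {T : κ → H →L[ℂ] H} {c : κ → ℂ}
    (h : ∀ k ∈ s, HasTr (T k) (c k)) : HasTr (∑ k ∈ s, T k) (∑ k ∈ s, c k) := by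
  intro ι _ e
  refine (hasSum_sum fun k hk => h k hk ι e).congr_fun ?_ |> id
  intro i
  rw [sum_apply, inner_sum]

theorem IsPath.bound {P : ℝ → H →L[ℂ] H} {L : ℝ} (h : IsPath P L) {ι : Type} [Countable ι]
    (e : HilbertBasis ι ℂ H) (p : MvPolynomial (Fin 2) ℝ) {K : NNReal}
    (hp : LipschitzOnWith K (fun z : ℂ => MvPolynomial.eval ![z.re, z.im] p)
      (Metric.closedBall 0 (RR P L))) {c : ℂ} (hc : HasTr (Q p (P 1) - Q p (P 0)) c) :
    ‖c‖ ≤ L * K := by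
  have hL := h.nonneg
  choose! g hg1 hg2 using fun (s t : ℝ) (hs : s ∈ Set.Icc (0 : ℝ) 1) (ht : t ∈ Set.Icc (0 : ℝ) 1) =>
    h.step hs ht p hp
  have key : ∀ n : ℕ, 0 < n → ‖c‖ ≤ L * K + EC p (RR P L) * L ^ 2 / n := by
    intro n hn
    have hn0 : (0 : ℝ) < n := by exact_mod_cast hn
    have hmem : ∀ j : ℕ, j ≤ n → ((j : ℝ) / n) ∈ Set.Icc (0 : ℝ) 1 := by
      intro j hj
      refine ⟨by positivity, ?_⟩
      rw [div_le_one hn0]
      exact_mod_cast hj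
    have h1 : HasTr (∑ j ∈ Finset.range n, (Q p (P (((j + 1 : ℕ) : ℝ) / n)) - Q p (P ((j : ℝ) / n))))
        (∑ j ∈ Finset.range n, g ((j : ℝ) / n) (((j + 1 : ℕ) : ℝ) / n)) := by
      refine HasTr.finsum _ fun j hj => ?_
      have hj' := Finset.mem_range.1 hj
      exact hg1 _ _ (hmem j hj'.le) (hmem (j + 1) hj')
    rw [Finset.sum_range_sub (fun j : ℕ => Q p (P ((j : ℝ) / n)))] at h1
    have e1 : ((n : ℕ) : ℝ) / n = 1 := div_self hn0.ne'
    have e2 : ((0 : ℕ) : ℝ) / n = 0 := by simp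
    rw [e1, e2] at h1
    rw [HasTr.uniq hc h1 e]
    calc _ ≤ ∑ j ∈ Finset.range n, (K * (L * (1 / n)) + EC p (RR P L) * (L * (1 / n)) ^ 2) := by
          refine (norm_sum_le _ _).trans (Finset.sum_le_sum fun j hj => ?_)
          have hj' := Finset.mem_range.1 hj
          have h2 := hg2 _ _ (hmem j hj'.le) (hmem (j + 1) hj')
          have e3 : |((j + 1 : ℕ) : ℝ) / n - (j : ℝ) / n| = 1 / n := by
            rw [← sub_div]
            push_cast
            rw [add_sub_cancel_left, abs_of_pos (by positivity)]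
          rw [e3] at h2
          exact h2
      _ = _ := by
          rw [Finset.sum_const, Finset.card_range, nsmul_eq_mul]
          field_simp
  have h2 : Filter.Tendsto (fun n : ℕ => L * K + EC p (RR P L) * L ^ 2 / n) Filter.atTop
      (nhds (L * K + 0)) :=
    tendsto_const_nhds.add (tendsto_const_div_atTop_nhds_zero_nat _)
  rw [add_zero] at h2
  exact ge_of_tendsto h2 (Filter.eventually_atTop.2 ⟨1, fun n hn => key n hn⟩)

/-- the path theorem -/
theorem IsPath.main {P : ℝ → H →L[ℂ] H} {L : ℝ} (h : IsPath P L) :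
    ∃ μ : Fin 4 → Measure ℂ, (∀ i, IsFiniteMeasure (μ i)) ∧
      (∀ i, (μ i Set.univ).toReal ≤ L) ∧
      ∀ f : ℂ → ℂ, ContDiff ℝ (⊤ : ℕ∞) f → HasCompactSupport f →
        HasTr (cfc f (P 1) - cfc f (P 0))
          ((∫ z : ℂ, fderiv ℝ f z 1 ∂(μ 0)) - (∫ z : ℂ, fderiv ℝ f z 1 ∂(μ 1)) +
            (∫ z : ℂ, fderiv ℝ f z Complex.I ∂(μ 2)) -
            (∫ z : ℂ, fderiv ℝ f z Complex.I ∂(μ 3))) := by
  by_cases hb : ∃ (ι : Type) (_ : Countable ι) (_ : HilbertBasis ι ℂ H), True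
  swap
  · refine ⟨fun _ => 0, fun i => inferInstance, fun i => by simpa using h.nonneg, ?_⟩
    intro f _ _ ι hι e
    exact (hb ⟨ι, hι, e, trivial⟩).elim
  obtain ⟨ι, hι, e, -⟩ := hb
  have m0 : (0 : ℝ) ∈ Set.Icc (0 : ℝ) 1 := ⟨le_rfl, zero_le_one⟩
  have m1 : (1 : ℝ) ∈ Set.Icc (0 : ℝ) 1 := ⟨zero_le_one, le_rfl⟩
  obtain ⟨τ, h1⟩ := h.nuc 0 m0 1 m1
  rw [sub_zero, abs_one, mul_one] at h1
  have hL := h.nonneg
  have hR : 1 ≤ RR P L := by
    have := norm_nonneg (P 0)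
    unfold RR
    linarith
  have h1' : Nuc (NN (rp (P 1)) (ip (P 1)) - NN (rp (P 0)) (ip (P 0))) L τ := by
    rw [NN_rp, NN_rp]; exact h1
  obtain ⟨⟨τA, hA⟩, ⟨τB, hB⟩⟩ := parts (rp_sa (P 0)) (ip_sa (P 0)) (rp_sa (P 1)) (ip_sa (P 1)) h1'
  have n0 := (h.norm_lt m0).le
  have n1 := (h.norm_lt m1).le
  choose c hc1 hc2 using fun k l : ℕ => mono_nuc hA hB (rp_comm (h.normal 0 m0))
    ((norm_rp _).trans n0) ((norm_rp _).trans n1) ((norm_ip _).trans n0) ((norm_ip _).trans n1)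
    hR k l
  have hsa : ∀ t ∈ Set.Icc (0 : ℝ) 1, ∀ k l : ℕ,
      IsSelfAdjoint (rp (P t) ^ k * ip (P t) ^ l) := by
    intro t ht k l
    have hcom : Commute (rp (P t)) (ip (P t)) := rp_comm (h.normal t ht)
    rw [IsSelfAdjoint, star_mul, star_pow, star_pow, (rp_sa (P t)).star_eq, (ip_sa (P t)).star_eq,
      ((hcom.pow_right l).pow_left k).eq]
  have hreal : ∀ k l, ((c k l).re : ℂ) = c k l := fun k l =>
    HasTr.real (hc1 k l) ((hsa 1 m1 k l).sub (hsa 0 m0 k l)) e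
  obtain ⟨μ, hμ1, hμ2, hμ3, hμ4⟩ := stmt_R (RR P L) L (fun k l => (c k l).re) (by linarith) hL
    (fun p K hp => by
      have h2 : HasTr (Q p (P 1) - Q p (P 0)) (∑ m ∈ p.support,
          ((p.coeff m : ℝ) : ℂ) * c (m 0) (m 1)) := by
        have e1 : Q p (P 1) - Q p (P 0) = ∑ m ∈ p.support, ((p.coeff m : ℝ) : ℂ) •
            (rp (P 1) ^ (m 0) * ip (P 1) ^ (m 1) - rp (P 0) ^ (m 0) * ip (P 0) ^ (m 1)) := by
          unfold Q
          rw [← Finset.sum_sub_distrib]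
          exact Finset.sum_congr rfl fun m _ => (smul_sub _ _ _).symm
        rw [e1]
        refine HasTr.finsum _ fun m _ => ?_
        intro ι' _ e'
        refine ((hc1 (m 0) (m 1) ι' e').mul_left ((p.coeff m : ℝ) : ℂ)).congr_fun ?_ |> id
        intro i
        rw [smul_apply, inner_smul_right]
      have h3 := h.bound e p hp h2
      have h4 : (∑ m ∈ p.support, ((p.coeff m : ℝ) : ℂ) * c (m 0) (m 1)) =
          ((∑ m ∈ p.support, p.coeff m * (c (m 0) (m 1)).re : ℝ) : ℂ) := by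
        push_cast
        exact Finset.sum_congr rfl fun m _ => by rw [hreal]
      rw [h4, Complex.norm_real, Real.norm_eq_abs] at h3
      exact h3)
  refine ⟨μ, hμ1, hμ3, ?_⟩
  have h5 := smooth (rp_sa (P 0)) (ip_sa (P 0)) (rp_sa (P 1)) (ip_sa (P 1))
    (rp_comm (h.normal 0 m0)) (rp_comm (h.normal 1 m1)) (fun ι' e' he' => ⟨L, RR P L,
      rp_sa (P 0), ip_sa (P 0), rp_sa (P 1), ip_sa (P 1), rp_comm (h.normal 0 m0),
      rp_comm (h.normal 1 m1), hL, hR, (norm_rp _).trans n0, (norm_ip _).trans n0,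
      (norm_rp _).trans n1, (norm_ip _).trans n1, hA.tb ι' e' he', hB.tb ι' e' he'⟩)
    (RR P L) μ hμ1 hμ2 (fun k k' => by
      rw [← hμ4 k k', hreal]
      exact hc1 k k')
  have e0 := NN_rp (P 0)
  have e1 := NN_rp (P 1)
  unfold NN at e0 e1
  rw [e0, e1] at h5
  exact h5

end Pool.PN
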