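import Pool.Agent.Work.FiniteRankNormal.Final

/-!
# Paths of normal operators: nuclear operators with their trace functionals
-/

open MeasureTheory
open scoped ComplexOrder InnerProductSpace

namespace Pool.PN

open Pool.FR Pool.FR.FAux

universe v

variable {H : Type v} [NormedAddCommGroup H] [InnerProductSpace ℂ H] [CompleteSpace H]

/-- `T` is nuclear with bound `M` and trace functional `τ S = tr (S T)`. -/
structure Nuc (T : H →L[ℂ] H) (M : ℝ) (τ : (H →L[ℂ] H) →ₗ[ℂ] ℂ) : Prop where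
  nonneg : 0 ≤ M
  norm_le : ‖T‖ ≤ M
  bd : ∀ S, ‖τ S‖ ≤ M * ‖S‖
  tb : ∀ (ι : Type) (e : ι → H), Orthonormal ℂ e → TB e T M
  tr : ∀ (ι : Type) (e : HilbertBasis ι ℂ H) (S₁ S₂ : H →L[ℂ] H),
    HasSum (fun i => inner ℂ (e i) (S₁ (T (S₂ (e i))))) (τ (S₂ * S₁))

variable {T T' : H →L[ℂ] H} {M M' : ℝ} {τ τ' : (H →L[ℂ] H) →ₗ[ℂ] ℂ}

theorem Nuc.zero : Nuc (0 : H →L[ℂ] H) 0 0 where
  nonneg := le_rfl
  norm_le := by simp
  bd := fun S => by simp
  tb := fun ι e _ => TB.zero e
  tr := fun ι e S₁ S₂ => by simp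

theorem Nuc.mono (h : Nuc T M τ) (hM : M ≤ M') : Nuc T M' τ where
  nonneg := h.nonneg.trans hM
  norm_le := h.norm_le.trans hM
  bd := fun S => (h.bd S).trans (by gcongr)
  tb := fun ι e he => (h.tb ι e he).mono hM
  tr := h.tr

theorem Nuc.add (h : Nuc T M τ) (h' : Nuc T' M' τ') : Nuc (T + T') (M + M') (τ + τ') where
  nonneg := add_nonneg h.nonneg h'.nonneg
  norm_le := (norm_add_le _ _).trans (add_le_add h.norm_le h'.norm_le)
  bd := fun S => by
    rw [LinearMap.add_apply, add_mul]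
    exact (norm_add_le _ _).trans (add_le_add (h.bd S) (h'.bd S))
  tb := fun ι e he => (h.tb ι e he).add (h'.tb ι e he)
  tr := fun ι e S₁ S₂ => by
    refine ((h.tr ι e S₁ S₂).add (h'.tr ι e S₁ S₂)).congr_fun ?_ |> id
    intro i
    rw [add_apply, map_add, inner_add_right]

theorem Nuc.smul (c : ℂ) (h : Nuc T M τ) : Nuc (c • T) (‖c‖ * M) (c • τ) where
  nonneg := mul_nonneg (norm_nonneg _) h.nonneg
  norm_le := by
    rw [norm_smul]
    exact mul_le_mul_of_nonneg_left h.norm_le (norm_nonneg _)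
  bd := fun S => by
    rw [LinearMap.smul_apply, norm_smul, mul_assoc]
    exact mul_le_mul_of_nonneg_left (h.bd S) (norm_nonneg _)
  tb := fun ι e he => (h.tb ι e he).smul c
  tr := fun ι e S₁ S₂ => by
    refine ((h.tr ι e S₁ S₂).mul_left c).congr_fun ?_ |> id
    intro i
    rw [smul_apply, map_smul, inner_smul_right]

/-- the functional of `L T R` -/
noncomputable def lrF (L R : H →L[ℂ] H) (τ : (H →L[ℂ] H) →ₗ[ℂ] ℂ) : (H →L[ℂ] H) →ₗ[ℂ] ℂ :=
  τ ∘ₗ (LinearMap.mulLeft ℂ R) ∘ₗ (LinearMap.mulRight ℂ L)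

theorem lrF_apply (L R S : H →L[ℂ] H) (τ : (H →L[ℂ] H) →ₗ[ℂ] ℂ) :
    lrF L R τ S = τ (R * (S * L)) := rfl

theorem Nuc.lr (L R : H →L[ℂ] H) (h : Nuc T M τ) :
    Nuc (L * T * R) (‖L‖ * M * ‖R‖) (lrF L R τ) where
  nonneg := mul_nonneg (mul_nonneg (norm_nonneg _) h.nonneg) (norm_nonneg _)
  norm_le := by
    refine (norm_mul_le _ _).trans ?_
    gcongr
    refine (norm_mul_le _ _).trans ?_
    gcongr
    exact h.norm_le
  bd := fun S => by
    rw [lrF_apply]
    refine (h.bd _).trans ?_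
    have h0 := h.nonneg
    calc M * ‖R * (S * L)‖ ≤ M * (‖R‖ * (‖S‖ * ‖L‖)) := by
          gcongr
          refine (norm_mul_le _ _).trans ?_
          gcongr
          exact norm_mul_le _ _
      _ = _ := by ring
  tb := fun ι e he => ((h.tb ι e he).mul_left L h.nonneg).mul_right R
    (mul_nonneg (norm_nonneg _) h.nonneg)
  tr := fun ι e S₁ S₂ => by
    have := h.tr ι e (S₁ * L) (R * S₂)
    have e1 : (R * S₂) * (S₁ * L) = R * ((S₂ * S₁) * L) := by noncomm_ring
    rw [e1] at this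
    exact this

/-- the functional of `T*` -/
noncomputable def starF (τ : (H →L[ℂ] H) →ₗ[ℂ] ℂ) : (H →L[ℂ] H) →ₗ[ℂ] ℂ where
  toFun S := (starRingEnd ℂ) (τ (star S))
  map_add' S S' := by rw [star_add, map_add, map_add]
  map_smul' c S := by
    rw [star_smul, map_smul, smul_eq_mul, map_mul]
    simp

theorem starF_apply (τ : (H →L[ℂ] H) →ₗ[ℂ] ℂ) (S : H →L[ℂ] H) :
    starF τ S = (starRingEnd ℂ) (τ (star S)) := rfl

theorem starkey (S₁ T S₂ : H →L[ℂ] H) (w : H) : inner ℂ w (S₁ ((star T) (S₂ w))) =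
    (starRingEnd ℂ) (inner ℂ w ((star S₂) (T ((star S₁) w)))) := by
  rw [inner_conj_symm, ContinuousLinearMap.star_eq_adjoint,
    ContinuousLinearMap.star_eq_adjoint, ContinuousLinearMap.star_eq_adjoint,
    ContinuousLinearMap.adjoint_inner_left, ← ContinuousLinearMap.adjoint_inner_right,
    ContinuousLinearMap.adjoint_inner_left]

theorem Nuc.star (h : Nuc T M τ) : Nuc (star T) M (starF τ) where
  nonneg := h.nonneg
  norm_le := by rw [norm_star]; exact h.norm_le
  bd := fun S => by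
    rw [starF_apply, RCLike.norm_conj]
    refine (h.bd _).trans ?_
    rw [norm_star]
  tb := fun ι e he => by
    intro S₁ S₂ s
    have h1 := h.tb ι e he (Star.star S₂) (Star.star S₁) s
    rw [norm_star, norm_star] at h1
    refine le_trans (le_of_eq ?_) (h1.trans (le_of_eq ?_))
    · exact Finset.sum_congr rfl fun i _ => by rw [starkey, RCLike.norm_conj]
    · ring
  tr := fun ι e S₁ S₂ => by
    have h1 := (h.tr ι e (Star.star S₂) (Star.star S₁)).map
      (starRingEnd ℂ : ℂ →+* ℂ) Complex.continuous_conj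
    rw [starF_apply, star_mul]
    refine h1.congr_fun ?_ |> id
    intro i
    rw [starkey]
    rfl

/-- the trace functional of the nuclear series -/
theorem summ_aux {x y : ℕ → H} (hs : Summable fun k => ‖x k‖ * ‖y k‖) (S : H →L[ℂ] H) :
    Summable fun k => inner ℂ (y k) (S (x k)) := by
  refine Summable.of_norm_bounded (g := fun k => ‖S‖ * (‖x k‖ * ‖y k‖)) (hs.mul_left _) fun k => ?_
  refine (norm_inner_le_norm _ _).trans ?_
  calc ‖y k‖ * ‖S (x k)‖ ≤ ‖y k‖ * (‖S‖ * ‖x k‖) := by gcongr; exact S.le_opNorm _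
    _ = _ := by ring

/-- the functional `S ↦ Σ ⟨y_k, S x_k⟩` -/
noncomputable def serF (x y : ℕ → H) (hs : Summable fun k => ‖x k‖ * ‖y k‖) :
    (H →L[ℂ] H) →ₗ[ℂ] ℂ where
  toFun S := ∑' k, inner ℂ (y k) (S (x k))
  map_add' S S' := by
    rw [← (summ_aux hs S).tsum_add (summ_aux hs S')]
    exact tsum_congr fun k => by rw [add_apply, inner_add_right]
  map_smul' c S := by
    rw [RingHom.id_apply, smul_eq_mul, ← tsum_mul_left]
    exact tsum_congr fun k => by rw [smul_apply, inner_smul_right]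

theorem nuc_series {x y : ℕ → H} (hs : Summable fun k => ‖x k‖ * ‖y k‖) {T : H →L[ℂ] H}
    (hT : ∀ z, HasSum (fun k => inner ℂ (y k) z • x k) (T z)) :
    Nuc T (∑' k, ‖x k‖ * ‖y k‖) (serF x y hs) := by
  have hsum : HasSum (fun k => InnerProductSpace.rankOne ℂ (x k) (y k)) T := by
    have h1 : Summable fun k => InnerProductSpace.rankOne ℂ (x k) (y k) := by
      refine Summable.of_norm_bounded (g := fun k => ‖x k‖ * ‖y k‖) hs fun k => ?_
      rw [InnerProductSpace.norm_rankOne]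
    have h2 : ∑' k, InnerProductSpace.rankOne ℂ (x k) (y k) = T := by
      ext z
      have h3 := (h1.hasSum.map (ContinuousLinearMap.apply ℂ H z)
        (ContinuousLinearMap.apply ℂ H z).continuous)
      exact h3.unique (hT z)
    rw [← h2]
    exact h1.hasSum
  have hM0 : 0 ≤ ∑' k, ‖x k‖ * ‖y k‖ := tsum_nonneg fun k => by positivity
  refine ⟨hM0, ?_, ?_, ?_, ?_⟩
  · rw [← hsum.tsum_eq]
    refine tsum_of_norm_bounded hs.hasSum fun k => ?_
    rw [InnerProductSpace.norm_rankOne]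
  · intro S
    have h1 : ‖∑' k, inner ℂ (y k) (S (x k))‖ ≤ ∑' k, ‖S‖ * (‖x k‖ * ‖y k‖) := by
      refine tsum_of_norm_bounded (hs.mul_left _).hasSum fun k => ?_
      refine (norm_inner_le_norm _ _).trans ?_
      calc ‖y k‖ * ‖S (x k)‖ ≤ ‖y k‖ * (‖S‖ * ‖x k‖) := by gcongr; exact S.le_opNorm _
        _ = _ := by ring
    rw [tsum_mul_left] at h1
    rw [mul_comm]
    exact h1
  · intro ι e he
    exact TB.hasSum (fun k => TB.rankOne he (x k) (y k)) (fun k => by positivity) hsum hs.hasSum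
  · intro ι e S₁ S₂
    -- the double series
    set a : ℕ → H := fun k => S₁ (x k) with ha
    set b : ℕ → H := fun k => (ContinuousLinearMap.adjoint S₂) (y k) with hb
    set g : ℕ × ι → ℂ := fun p => inner ℂ (b p.1) (e p.2) * inner ℂ (e p.2) (a p.1) with hg
    have hrow : ∀ k, HasSum (fun i => g (k, i)) (inner ℂ (b k) (a k)) := fun k =>
      e.hasSum_inner_mul_inner (b k) (a k)
    have hrowb : ∀ k (s : Finset ι), ∑ i ∈ s, ‖g (k, i)‖ ≤ ‖b k‖ * ‖a k‖ := by
      intro k s
      calc ∑ i ∈ s, ‖g (k, i)‖ = ∑ i ∈ s, ‖inner ℂ (e i) (b k)‖ * ‖inner ℂ (e i) (a k)‖ := by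
            refine Finset.sum_congr rfl fun i _ => ?_
            rw [hg]
            simp only
            rw [norm_mul, norm_inner_symm]
        _ ≤ √(∑ i ∈ s, ‖inner ℂ (e i) (b k)‖ ^ 2) * √(∑ i ∈ s, ‖inner ℂ (e i) (a k)‖ ^ 2) :=
            Real.sum_mul_le_sqrt_mul_sqrt _ _ _
        _ ≤ ‖b k‖ * ‖a k‖ := by
            have b1 := e.orthonormal.sum_inner_products_le (b k) (s := s)
            have b2 := e.orthonormal.sum_inner_products_le (a k) (s := s)
            gcongr
            · exact Real.sqrt_le_iff.mpr ⟨norm_nonneg _, b1⟩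
            · exact Real.sqrt_le_iff.mpr ⟨norm_nonneg _, b2⟩
    have hrows : ∀ k, Summable fun i => ‖g (k, i)‖ := fun k =>
      summable_of_sum_le (fun i => norm_nonneg _) (hrowb k)
    have hba : Summable fun k => ‖b k‖ * ‖a k‖ := by
      refine Summable.of_nonneg_of_le (fun k => by positivity) (fun k => ?_)
        (hs.mul_left (‖S₁‖ * ‖S₂‖))
      calc ‖b k‖ * ‖a k‖ ≤ (‖ContinuousLinearMap.adjoint S₂‖ * ‖y k‖) * (‖S₁‖ * ‖x k‖) := by
            gcongr
            · exact ContinuousLinearMap.le_opNorm _ _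
            · exact S₁.le_opNorm _
        _ = _ := by rw [LinearIsometryEquiv.norm_map]; ring
    have hgs : Summable fun p => ‖g p‖ := by
      rw [summable_prod_of_nonneg (fun p => norm_nonneg _)]
      refine ⟨hrows, Summable.of_nonneg_of_le (fun k => tsum_nonneg fun i => norm_nonneg _)
        (fun k => ?_) hba⟩
      exact (hrows k).tsum_le_of_sum_le (hrowb k)
    have hgS : Summable g := hgs.of_norm
    have h1 : HasSum (fun k => inner ℂ (b k) (a k)) (∑' p, g p) :=
      hgS.hasSum.prod_fiberwise hrow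
    have hcol : ∀ i, HasSum (fun k => g (k, i)) (inner ℂ (e i) (S₁ (T (S₂ (e i))))) := by
      intro i
      have h2 := ((hT (S₂ (e i))).map S₁ S₁.continuous).map (innerSL ℂ (e i))
        (innerSL ℂ (e i)).continuous
      refine h2.congr_fun ?_ |> id
      intro k
      simp only [hg, ha, hb, Function.comp, map_smul, smul_eq_mul, innerSL_apply_apply]
      rw [ContinuousLinearMap.adjoint_inner_left]
    have h3 : HasSum (fun i => inner ℂ (e i) (S₁ (T (S₂ (e i))))) (∑' p, g p) := by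
      have h4 : HasSum (g ∘ (Equiv.prodComm ι ℕ)) (∑' p, g p) :=
        (Equiv.prodComm ι ℕ).hasSum_iff.2 hgS.hasSum
      exact h4.prod_fiberwise hcol
    have h5 : serF x y hs (S₂ * S₁) = ∑' p, g p := by
      rw [← h1.tsum_eq]
      refine tsum_congr fun k => ?_
      rw [ha, hb]
      simp only
      rw [ContinuousLinearMap.adjoint_inner_left]
      rfl
    rw [h5]
    exact h3

end Pool.PN
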