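import Pool.Agent.Work.PathNormal.A

/-!
# Paths of normal operators: one small step
-/

open MeasureTheory
open scoped ComplexOrder InnerProductSpace

namespace Pool.PN

open Pool.FR Pool.FR.FAux

universe v

variable {H : Type v} [NormedAddCommGroup H] [InnerProductSpace ℂ H] [CompleteSpace H]

theorem one_norm : ‖(1 : H →L[ℂ] H)‖ ≤ 1 := ContinuousLinearMap.norm_id_le

/-- powers -/
theorem pow_nuc {X X' : H →L[ℂ] H} {δ R : ℝ} {τ : (H →L[ℂ] H) →ₗ[ℂ] ℂ} (hA : Nuc (X' - X) δ τ)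
    (hX : ‖X‖ ≤ R) (hX' : ‖X'‖ ≤ R) (hR : 1 ≤ R) (k : ℕ) :
    ∃ τk, Nuc (X' ^ k - X ^ k) (k * R ^ k * δ) τk ∧
      ∀ S, S * X = X * S → ‖τk S - k * τ (X ^ (k - 1) * S)‖ ≤ (k : ℝ) ^ 2 * R ^ k * δ ^ 2 * ‖S‖ := by
  have hR0 : 0 ≤ R := by linarith
  have hδ := hA.nonneg
  induction k with
  | zero =>
    refine ⟨0, ?_, fun S _ => ?_⟩
    · simpa using Nuc.zero
    · simp
  | succ k ih =>
    obtain ⟨τk, h1, h2⟩ := ih
    have e1 : X' ^ (k + 1) - X ^ (k + 1) = X' ^ k * (X' - X) * 1 + 1 * (X' ^ k - X ^ k) * X := by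
      rw [pow_succ, pow_succ]; noncomm_ring
    have h3 := (hA.lr (X' ^ k) 1).add (h1.lr 1 X)
    rw [← e1] at h3
    have n1 := norm_pow_le_pow hX' k
    have n2 := norm_pow_le_pow hX k
    refine ⟨_, h3.mono ?_, fun S hS => ?_⟩
    · have h4 : R ^ k ≤ R ^ (k + 1) := pow_le_pow_right₀ hR (Nat.le_succ k)
      calc ‖X' ^ k‖ * δ * ‖(1 : H →L[ℂ] H)‖ + ‖(1 : H →L[ℂ] H)‖ * (k * R ^ k * δ) * ‖X‖
          ≤ R ^ k * δ * 1 + 1 * (k * R ^ k * δ) * R := by
            gcongr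
            · exact one_norm
            · exact one_norm
        _ ≤ R ^ (k + 1) * δ * 1 + 1 * (k * R ^ k * δ) * R := by gcongr
        _ = _ := by push_cast; ring
    · rw [LinearMap.add_apply, lrF_apply, lrF_apply]
      have hXS : X * (S * 1) = X * S := by rw [mul_one]
      have hcom : (X * S) * X = X * (X * S) := by rw [mul_assoc, hS]
      have h5 := h2 (X * S) hcom
      have e2 : τ (1 * (S * X' ^ k)) = τ (S * X ^ k) + τ (S * (X' ^ k - X ^ k)) := by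
        rw [← map_add, one_mul]
        congr 1
        noncomm_ring
      have hcomk : ∀ m : ℕ, S * X ^ m = X ^ m * S := by
        intro m
        exact ((show Commute S X from hS).pow_right m).eq
      have e3 : (k : ℂ) * τ (X ^ (k - 1) * (X * S)) = k * τ (X ^ k * S) := by
        rcases Nat.eq_zero_or_pos k with rfl | hk
        · simp
        · congr 2
          rw [← mul_assoc, ← pow_succ, Nat.sub_add_cancel hk]
      rw [hXS, e2]
      have e4 : τ (S * X ^ k) + τ (S * (X' ^ k - X ^ k)) + τk (X * S) -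
          ((k + 1 : ℕ) : ℂ) * τ (X ^ (k + 1 - 1) * S) =
          τ (S * (X' ^ k - X ^ k)) + (τk (X * S) - k * τ (X ^ (k - 1) * (X * S))) := by
        rw [e3, hcomk, Nat.add_sub_cancel]
        push_cast
        ring
      rw [e4]
      have h6 : ‖τ (S * (X' ^ k - X ^ k))‖ ≤ δ * (‖S‖ * (k * R ^ k * δ)) := by
        refine (hA.bd _).trans ?_
        gcongr
        refine (norm_mul_le _ _).trans ?_
        gcongr
        exact h1.norm_le
      have h7 : ‖X * S‖ ≤ R * ‖S‖ := (norm_mul_le _ _).trans (by gcongr)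
      calc ‖τ (S * (X' ^ k - X ^ k)) + (τk (X * S) - k * τ (X ^ (k - 1) * (X * S)))‖
          ≤ δ * (‖S‖ * (k * R ^ k * δ)) + (k : ℝ) ^ 2 * R ^ k * δ ^ 2 * (R * ‖S‖) := by
            refine (norm_add_le _ _).trans (add_le_add h6 (h5.trans ?_))
            gcongr
        _ ≤ δ * (‖S‖ * (k * R ^ (k + 1) * δ)) + (k : ℝ) ^ 2 * R ^ k * δ ^ 2 * (R * ‖S‖) := by
            gcongr
            exact Nat.le_succ k
        _ = ((k : ℝ) ^ 2 + k) * R ^ (k + 1) * δ ^ 2 * ‖S‖ := by ring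
        _ ≤ _ := by
            have : ((k : ℝ) ^ 2 + k) ≤ ((k + 1 : ℕ) : ℝ) ^ 2 := by
              push_cast
              have : (0 : ℝ) ≤ k := by positivity
              nlinarith
            gcongr

/-- monomials -/
theorem mono_nuc {X X' Y Y' : H →L[ℂ] H} {δ R : ℝ} {τA τB : (H →L[ℂ] H) →ₗ[ℂ] ℂ}
    (hA : Nuc (X' - X) δ τA) (hB : Nuc (Y' - Y) δ τB) (hc : X * Y = Y * X)
    (hX : ‖X‖ ≤ R) (hX' : ‖X'‖ ≤ R) (hY : ‖Y‖ ≤ R) (hY' : ‖Y'‖ ≤ R) (hR : 1 ≤ R) (k l : ℕ) :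
    ∃ c : ℂ, HasTr (X' ^ k * Y' ^ l - X ^ k * Y ^ l) c ∧
      ‖c - (k * τA (X ^ (k - 1) * Y ^ l) + l * τB (X ^ k * Y ^ (l - 1)))‖ ≤
        ((k : ℝ) ^ 2 + l ^ 2 + k * l) * (R ^ k * R ^ l) * δ ^ 2 := by
  have hR0 : 0 ≤ R := by linarith
  have hδ := hA.nonneg
  obtain ⟨τk, h1, h2⟩ := pow_nuc hA hX hX' hR k
  obtain ⟨τl, h3, h4⟩ := pow_nuc hB hY hY' hR l
  have hcXY : Commute X Y := hc
  have n1 := norm_pow_le_pow hX k
  have n2 := norm_pow_le_pow hY l
  have c1 := h2 (Y ^ l) (hcXY.symm.pow_left l).eq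
  have c2 := h4 (X ^ k) (hcXY.pow_left k).eq
  have c3 : ‖τk (Y' ^ l - Y ^ l)‖ ≤ (k * R ^ k * δ) * (l * R ^ l * δ) := by
    refine (h1.bd _).trans ?_
    gcongr
    exact h3.norm_le
  have e0 : Y ^ (l - 1) * X ^ k = X ^ k * Y ^ (l - 1) :=
    ((hcXY.pow_right (l - 1)).pow_left k).eq.symm
  rw [e0] at c2
  refine ⟨τk (Y ^ l) + τl (X ^ k) + τk (Y' ^ l - Y ^ l), ?_, ?_⟩
  · intro ι _ e
    have t1 := h1.tr ι e 1 (Y ^ l)
    have t2 := h3.tr ι e (X ^ k) 1
    have t3 := h1.tr ι e 1 (Y' ^ l - Y ^ l)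
    rw [mul_one] at t1 t3
    rw [one_mul] at t2
    refine ((t1.add t2).add t3).congr_fun ?_ |> id
    intro i
    rw [← inner_add_right, ← inner_add_right]
    congr 1
    have : X' ^ k * Y' ^ l - X ^ k * Y ^ l = 1 * ((X' ^ k - X ^ k) * (Y ^ l)) +
      X ^ k * ((Y' ^ l - Y ^ l) * 1) + 1 * ((X' ^ k - X ^ k) * (Y' ^ l - Y ^ l)) := by noncomm_ring
    rw [this]
    rfl
  · have e1 : τk (Y ^ l) + τl (X ^ k) + τk (Y' ^ l - Y ^ l) -
        (k * τA (X ^ (k - 1) * Y ^ l) + l * τB (X ^ k * Y ^ (l - 1))) =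
        (τk (Y ^ l) - k * τA (X ^ (k - 1) * Y ^ l)) +
        (τl (X ^ k) - l * τB (X ^ k * Y ^ (l - 1))) + τk (Y' ^ l - Y ^ l) := by ring
    rw [e1]
    calc _ ≤ (k : ℝ) ^ 2 * R ^ k * δ ^ 2 * R ^ l + (l : ℝ) ^ 2 * R ^ l * δ ^ 2 * R ^ k +
          (k * R ^ k * δ) * (l * R ^ l * δ) := by
          refine (norm_add_le _ _).trans (add_le_add ((norm_add_le _ _).trans (add_le_add
            (c1.trans ?_) (c2.trans ?_))) c3)
          · gcongr
          · gcongr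
      _ = _ := by ring

/-! ### polynomials -/

/-- `∂p/∂x` at the pair -/
noncomputable def Px (p : MvPolynomial (Fin 2) ℝ) (X Y : H →L[ℂ] H) : H →L[ℂ] H :=
  ∑ m ∈ p.support, (((p.coeff m : ℝ) : ℂ) * (m 0 : ℕ)) • (X ^ (m 0 - 1) * Y ^ (m 1))

/-- `∂p/∂y` at the pair -/
noncomputable def Py (p : MvPolynomial (Fin 2) ℝ) (X Y : H →L[ℂ] H) : H →L[ℂ] H :=
  ∑ m ∈ p.support, (((p.coeff m : ℝ) : ℂ) * (m 1 : ℕ)) • (X ^ (m 0) * Y ^ (m 1 - 1))

/-- `∂p/∂x` -/
noncomputable def fx (p : MvPolynomial (Fin 2) ℝ) (z : ℂ) : ℝ :=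
  ∑ m ∈ p.support, p.coeff m * ((m 0 : ℕ) * z.re ^ (m 0 - 1) * z.im ^ (m 1))

/-- `∂p/∂y` -/
noncomputable def fy (p : MvPolynomial (Fin 2) ℝ) (z : ℂ) : ℝ :=
  ∑ m ∈ p.support, p.coeff m * ((m 1 : ℕ) * z.re ^ (m 0) * z.im ^ (m 1 - 1))

theorem grad_le (p : MvPolynomial (Fin 2) ℝ) {K : NNReal} {R : ℝ}
    (hp : LipschitzOnWith K (fun z : ℂ => MvPolynomial.eval ![z.re, z.im] p)
      (Metric.closedBall 0 R)) {z : ℂ} (hz : ‖z‖ < R) :
    ‖(fx p z : ℂ) - Complex.I * fy p z‖ ≤ K := by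
  set v : ℂ := ⟨fx p z, fy p z⟩ with hv
  have hd : HasDerivAt (fun t : ℝ => MvPolynomial.eval ![(z + t * v).re, (z + t * v).im] p)
      (fx p z * fx p z + fy p z * fy p z) 0 := by
    have h1 : (fun t : ℝ => MvPolynomial.eval ![(z + t * v).re, (z + t * v).im] p) =
        fun t : ℝ => ∑ m ∈ p.support, p.coeff m *
          ((z.re + t * fx p z) ^ (m 0) * (z.im + t * fy p z) ^ (m 1)) := by
      funext t
      rw [MvPolynomial.eval_eq']
      refine Finset.sum_congr rfl fun m _ => ?_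
      rw [Fin.prod_univ_two]
      simp [hv]
    rw [h1]
    have h2 : ∀ m : Fin 2 →₀ ℕ, HasDerivAt (fun t : ℝ => p.coeff m *
          ((z.re + t * fx p z) ^ (m 0) * (z.im + t * fy p z) ^ (m 1)))
        (p.coeff m * (((m 0 : ℕ) * z.re ^ (m 0 - 1) * fx p z) * z.im ^ (m 1) +
          z.re ^ (m 0) * ((m 1 : ℕ) * z.im ^ (m 1 - 1) * fy p z))) 0 := by
      intro m
      have a1 : HasDerivAt (fun t : ℝ => z.re + t * fx p z) (fx p z) 0 := by
        simpa using ((hasDerivAt_id (0 : ℝ)).mul_const (fx p z)).const_add z.re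
      have a2 : HasDerivAt (fun t : ℝ => z.im + t * fy p z) (fy p z) 0 := by
        simpa using ((hasDerivAt_id (0 : ℝ)).mul_const (fy p z)).const_add z.im
      have a3 := ((a1.fun_pow (m 0)).fun_mul (a2.fun_pow (m 1))).const_mul (p.coeff m)
      simpa using a3
    have h3 := HasDerivAt.fun_sum fun m (_ : m ∈ p.support) => h2 m
    have e1 : fx p z * fx p z + fy p z * fy p z = ∑ m ∈ p.support,
        (p.coeff m * (((m 0 : ℕ) * z.re ^ (m 0 - 1) * fx p z) * z.im ^ (m 1) +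
          z.re ^ (m 0) * ((m 1 : ℕ) * z.im ^ (m 1 - 1) * fy p z))) := by
      conv_lhs => rw [show fx p z * fx p z + fy p z * fy p z = (∑ m ∈ p.support, p.coeff m *
        ((m 0 : ℕ) * z.re ^ (m 0 - 1) * z.im ^ (m 1))) * fx p z + (∑ m ∈ p.support, p.coeff m *
        ((m 1 : ℕ) * z.re ^ (m 0) * z.im ^ (m 1 - 1))) * fy p z from rfl]
      rw [Finset.sum_mul, Finset.sum_mul, ← Finset.sum_add_distrib]
      refine Finset.sum_congr rfl fun m _ => ?_
      ring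
    rw [e1]
    exact h3
  have hnv : ‖v‖ ^ 2 = fx p z * fx p z + fy p z * fy p z := by
    rw [← Complex.normSq_eq_norm_sq, Complex.normSq_apply]
  have hlip : ∀ᶠ t : ℝ in nhds 0, ‖MvPolynomial.eval ![(z + t * v).re, (z + t * v).im] p -
      MvPolynomial.eval ![(z + (0 : ℝ) * v).re, (z + (0 : ℝ) * v).im] p‖ ≤
        (K * ‖v‖) * ‖t - 0‖ := by
    have hc : Continuous fun t : ℝ => ‖z + t * v‖ := by fun_prop
    have h0 : ‖z + ((0 : ℝ) : ℂ) * v‖ < R := by simpa using hz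
    filter_upwards [hc.continuousAt.eventually_lt continuousAt_const h0] with t ht
    have h1 := hp.dist_le_mul (z + t * v) (by simpa using ht.le) (z + (0 : ℝ) * v)
      (by simpa using hz.le)
    rw [Real.dist_eq] at h1
    rw [Real.norm_eq_abs]
    refine h1.trans (le_of_eq ?_)
    rw [dist_eq_norm]
    simp
    ring
  have h4 := hd.le_of_lip' (by positivity) hlip
  rw [← hnv, norm_pow, norm_norm, sq] at h4
  have h5 : ‖v‖ ≤ K := by
    by_contra hcon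
    push Not at hcon
    have h6 : 0 < ‖v‖ := lt_of_le_of_lt K.2 hcon
    have := le_of_mul_le_mul_right h4 h6
    linarith
  have h6 : (fx p z : ℂ) - Complex.I * fy p z = (starRingEnd ℂ) v := by
    apply Complex.ext <;> simp [hv]
  rw [h6, RCLike.norm_conj]
  exact h5

theorem norm_grad {X Y : H →L[ℂ] H} (hX : IsSelfAdjoint X) (hY : IsSelfAdjoint Y)
    (hc : X * Y = Y * X) (p : MvPolynomial (Fin 2) ℝ) {K : NNReal} {R : ℝ}
    (hp : LipschitzOnWith K (fun z : ℂ => MvPolynomial.eval ![z.re, z.im] p)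
      (Metric.closedBall 0 R)) (hR : ‖NN X Y‖ < R) :
    ‖Px p X Y - Complex.I • Py p X Y‖ ≤ K := by
  have := normal hX hY hc
  have c1 : Continuous fun z : ℂ => (z.re : ℂ) :=
    Complex.continuous_ofReal.comp Complex.continuous_re
  have c2 : Continuous fun z : ℂ => (z.im : ℂ) :=
    Complex.continuous_ofReal.comp Complex.continuous_im
  have e1 : cfc (fun z : ℂ => (fx p z : ℂ) - Complex.I * fy p z) (NN X Y) =
      Px p X Y - Complex.I • Py p X Y := by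
    have hx : cfc (fun z : ℂ => (fx p z : ℂ)) (NN X Y) = Px p X Y := by
      have h1 : (fun z : ℂ => (fx p z : ℂ)) = ∑ m ∈ p.support, fun z : ℂ =>
          (((p.coeff m : ℝ) : ℂ) * (m 0 : ℕ)) * ((z.re : ℂ) ^ (m 0 - 1) * (z.im : ℂ) ^ (m 1)) := by
        funext z
        rw [Finset.sum_apply, fx]
        push_cast
        exact Finset.sum_congr rfl fun m _ => by ring
      rw [h1, cfc_sum (R := ℂ) (fun (m : Fin 2 →₀ ℕ) (z : ℂ) =>
          (((p.coeff m : ℝ) : ℂ) * (m 0 : ℕ)) * ((z.re : ℂ) ^ (m 0 - 1) * (z.im : ℂ) ^ (m 1)))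
        (NN X Y) p.support fun m _ =>
        (continuous_const.mul ((c1.pow _).mul (c2.pow _))).continuousOn, Px]
      exact Finset.sum_congr rfl fun m _ => cfc_mono hX hY hc _ _ _
    have hy : cfc (fun z : ℂ => (fy p z : ℂ)) (NN X Y) = Py p X Y := by
      have h1 : (fun z : ℂ => (fy p z : ℂ)) = ∑ m ∈ p.support, fun z : ℂ =>
          (((p.coeff m : ℝ) : ℂ) * (m 1 : ℕ)) * ((z.re : ℂ) ^ (m 0) * (z.im : ℂ) ^ (m 1 - 1)) := by
        funext z
        rw [Finset.sum_apply, fy]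
        push_cast
        exact Finset.sum_congr rfl fun m _ => by ring
      rw [h1, cfc_sum (R := ℂ) (fun (m : Fin 2 →₀ ℕ) (z : ℂ) =>
          (((p.coeff m : ℝ) : ℂ) * (m 1 : ℕ)) * ((z.re : ℂ) ^ (m 0) * (z.im : ℂ) ^ (m 1 - 1)))
        (NN X Y) p.support fun m _ =>
        (continuous_const.mul ((c1.pow _).mul (c2.pow _))).continuousOn, Py]
      exact Finset.sum_congr rfl fun m _ => cfc_mono hX hY hc _ _ _
    have cx : Continuous fun z : ℂ => (fx p z : ℂ) := by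
      unfold fx; fun_prop
    have cy : Continuous fun z : ℂ => (fy p z : ℂ) := by
      unfold fy; fun_prop
    rw [cfc_sub (fun z : ℂ => (fx p z : ℂ)) (fun z : ℂ => Complex.I * (fy p z : ℂ)) (NN X Y)
      cx.continuousOn (continuous_const.mul cy).continuousOn,
      cfc_const_mul Complex.I (fun z : ℂ => (fy p z : ℂ)) (NN X Y) cy.continuousOn, hx, hy]
  rw [← e1]
  refine norm_cfc_le K.2 fun z hz => grad_le p hp ?_
  exact lt_of_le_of_lt (spec_bound hz) hR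

theorem Px_sa {X Y : H →L[ℂ] H} (hX : IsSelfAdjoint X) (hY : IsSelfAdjoint Y)
    (hc : X * Y = Y * X) (p : MvPolynomial (Fin 2) ℝ) : star (Px p X Y) = Px p X Y := by
  unfold Px
  rw [star_sum]
  refine Finset.sum_congr rfl fun m _ => ?_
  have hcXY : Commute X Y := hc
  rw [star_smul, star_mul (X ^ _), star_pow X, star_pow Y, hX.star_eq, hY.star_eq,
    ((hcXY.pow_right _).pow_left _).eq]
  simp

theorem Py_sa {X Y : H →L[ℂ] H} (hX : IsSelfAdjoint X) (hY : IsSelfAdjoint Y)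
    (hc : X * Y = Y * X) (p : MvPolynomial (Fin 2) ℝ) : star (Py p X Y) = Py p X Y := by
  unfold Py
  rw [star_sum]
  refine Finset.sum_congr rfl fun m _ => ?_
  have hcXY : Commute X Y := hc
  rw [star_smul, star_mul (X ^ _), star_pow X, star_pow Y, hX.star_eq, hY.star_eq,
    ((hcXY.pow_right _).pow_left _).eq]
  simp

/-- the constant of the quadratic error -/
noncomputable def EC (p : MvPolynomial (Fin 2) ℝ) (R : ℝ) : ℝ :=
  ∑ m ∈ p.support, |p.coeff m| *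
    (((m 0 : ℕ) : ℝ) ^ 2 + ((m 1 : ℕ) : ℝ) ^ 2 + (m 0 : ℕ) * (m 1 : ℕ)) * (R ^ (m 0) * R ^ (m 1))

/-- one step -/
theorem step {X Y X' Y' : H →L[ℂ] H} (hX : IsSelfAdjoint X) (hY : IsSelfAdjoint Y)
    (hX' : IsSelfAdjoint X') (hY' : IsSelfAdjoint Y') (hc : X * Y = Y * X) {δ R : ℝ}
    {τ : (H →L[ℂ] H) →ₗ[ℂ] ℂ} (hD : Nuc (NN X' Y' - NN X Y) δ τ) (hR : 1 ≤ R)
    (n1 : ‖X‖ ≤ R) (n2 : ‖Y‖ ≤ R) (n3 : ‖X'‖ ≤ R) (n4 : ‖Y'‖ ≤ R) (hN : ‖NN X Y‖ < R)
    (p : MvPolynomial (Fin 2) ℝ) {K : NNReal}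
    (hp : LipschitzOnWith K (fun z : ℂ => MvPolynomial.eval ![z.re, z.im] p)
      (Metric.closedBall 0 R)) :
    ∃ c : ℂ, HasTr (∑ m ∈ p.support, ((p.coeff m : ℝ) : ℂ) •
        (X' ^ (m 0) * Y' ^ (m 1) - X ^ (m 0) * Y ^ (m 1))) c ∧
      ‖c‖ ≤ K * δ + EC p R * δ ^ 2 := by
  have hR0 : 0 ≤ R := by linarith
  have hδ := hD.nonneg
  set D := NN X' Y' - NN X Y with hDdef
  have hs : star D = (X' - Complex.I • Y') - (X - Complex.I • Y) := by
    rw [hDdef, star_sub, star_NN hX' hY', star_NN hX hY]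
  have e1 : X' - X = (1 / 2 : ℂ) • (D + star D) := by
    rw [hs, hDdef, NN, NN]
    module
  have e2 : Y' - Y = (-Complex.I / 2) • (D + (-1 : ℂ) • star D) := by
    rw [hs, hDdef, NN, NN]
    have h1 : (-Complex.I / 2) * (2 * Complex.I) = 1 := by
      linear_combination (-1 : ℂ) * Complex.I_mul_I
    have h2 : (X' + Complex.I • Y') - (X + Complex.I • Y) +
        (-1 : ℂ) • ((X' - Complex.I • Y') - (X - Complex.I • Y)) =
        (2 * Complex.I) • (Y' - Y) := by module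
    rw [h2, smul_smul, h1, one_smul]
  have hA : Nuc (X' - X) δ ((1 / 2 : ℂ) • (τ + starF τ)) := by
    rw [e1]
    refine ((hD.add hD.star).smul (1 / 2)).mono (le_of_eq ?_)
    norm_num
    ring
  have hB : Nuc (Y' - Y) δ ((-Complex.I / 2) • (τ + (-1 : ℂ) • starF τ)) := by
    rw [e2]
    refine ((hD.add (hD.star.smul (-1))).smul (-Complex.I / 2)).mono (le_of_eq ?_)
    rw [norm_div, norm_neg, norm_neg, Complex.norm_I]
    norm_num
    ring
  set τA := (1 / 2 : ℂ) • (τ + starF τ) with hτA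
  set τB := (-Complex.I / 2) • (τ + (-1 : ℂ) • starF τ) with hτB
  choose c hc1 hc2 using fun k l : ℕ => mono_nuc hA hB hc n1 n3 n2 n4 hR k l
  refine ⟨∑ m ∈ p.support, ((p.coeff m : ℝ) : ℂ) * c (m 0) (m 1), ?_, ?_⟩
  · intro ι _ e
    have h1 := hasSum_sum fun m (_ : m ∈ p.support) =>
      (hc1 (m 0) (m 1) ι e).mul_left ((p.coeff m : ℝ) : ℂ)
    refine h1.congr_fun ?_ |> id
    intro i
    rw [sum_apply, inner_sum]
    refine Finset.sum_congr rfl fun m _ => ?_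
    rw [smul_apply, inner_smul_right]
  · have h1 : τA (Px p X Y) + τB (Py p X Y) = ∑ m ∈ p.support, ((p.coeff m : ℝ) : ℂ) *
        (((m 0 : ℕ) : ℂ) * τA (X ^ (m 0 - 1) * Y ^ (m 1)) +
          ((m 1 : ℕ) : ℂ) * τB (X ^ (m 0) * Y ^ (m 1 - 1))) := by
      rw [Px, Py, map_sum, map_sum, ← Finset.sum_add_distrib]
      refine Finset.sum_congr rfl fun m _ => ?_
      rw [map_smul, map_smul, smul_eq_mul, smul_eq_mul]
      ring
    have h2 : ‖(∑ m ∈ p.support, ((p.coeff m : ℝ) : ℂ) * c (m 0) (m 1)) -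
        (τA (Px p X Y) + τB (Py p X Y))‖ ≤ EC p R * δ ^ 2 := by
      rw [h1, ← Finset.sum_sub_distrib, EC, Finset.sum_mul]
      refine (norm_sum_le _ _).trans (Finset.sum_le_sum fun m _ => ?_)
      rw [← mul_sub, norm_mul, Complex.norm_real, Real.norm_eq_abs]
      calc _ ≤ |p.coeff m| * ((((m 0 : ℕ) : ℝ) ^ 2 + ((m 1 : ℕ) : ℝ) ^ 2 + (m 0 : ℕ) * (m 1 : ℕ)) *
            (R ^ (m 0) * R ^ (m 1)) * δ ^ 2) := by
            gcongr
            exact hc2 (m 0) (m 1)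
        _ = _ := by ring
    have h3 : τA (Px p X Y) + τB (Py p X Y) =
        ((τ (Px p X Y - Complex.I • Py p X Y)).re : ℂ) := by
      rw [hτA, hτB]
      simp only [LinearMap.smul_apply, LinearMap.add_apply, starF_apply, Px_sa hX hY hc,
        Py_sa hX hY hc, smul_eq_mul, map_sub, map_smul]
      apply Complex.ext
      · simp
        ring
      · simp
    have h4 : ‖τA (Px p X Y) + τB (Py p X Y)‖ ≤ K * δ := by
      rw [h3, Complex.norm_real, Real.norm_eq_abs]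
      refine (Complex.abs_re_le_norm _).trans ((hD.bd _).trans ?_)
      rw [mul_comm]
      gcongr
      exact norm_grad hX hY hc p hp hN
    calc _ = ‖((∑ m ∈ p.support, ((p.coeff m : ℝ) : ℂ) * c (m 0) (m 1)) -
        (τA (Px p X Y) + τB (Py p X Y))) + (τA (Px p X Y) + τB (Py p X Y))‖ := by
          rw [sub_add_cancel]
      _ ≤ EC p R * δ ^ 2 + K * δ := (norm_add_le _ _).trans (add_le_add h2 h4)
      _ = _ := add_comm _ _

end Pool.PN
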