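import Pool.Agent.Work.PathNormal.D

/-!
# Paths of normal operators: phase-locked pairs
-/

open MeasureTheory
open scoped ComplexOrder InnerProductSpace

namespace Pool.PN

open Pool.FR Pool.FR.FAux

universe v

variable {H : Type v} [NormedAddCommGroup H] [InnerProductSpace ℂ H] [CompleteSpace H]

/-- normality along the line through `N₁` and `N₂` -/
theorem normal_line {N₁ N₂ : H →L[ℂ] H} (h1 : IsStarNormal N₁) (h2 : IsStarNormal N₂) {c : ℂ}
    (hc : c ≠ 0) (hK : IsSelfAdjoint (c • (star N₁ * N₂ - N₂ * star N₁))) {τ : ℂ}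
    (hτ : (τ * (starRingEnd ℂ) c).re = ‖τ‖ ^ 2 * c.re) : IsStarNormal (N₁ + τ • (N₂ - N₁)) := by
  set K := star N₁ * N₂ - N₂ * star N₁ with hKdef
  have e1 : star N₁ * N₁ = N₁ * star N₁ := h1.star_comm_self.eq
  have e2 : star N₂ * N₂ = N₂ * star N₂ := h2.star_comm_self.eq
  have hKs : star K = star N₂ * N₁ - N₁ * star N₂ := by
    rw [hKdef, star_sub, star_mul, star_mul, star_star]
  have hK' : (starRingEnd ℂ) c • star K = c • K := by
    have := hK.star_eq
    rw [star_smul] at this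
    exact this
  have hc' : (starRingEnd ℂ) c ≠ 0 := by
    rw [Ne, map_eq_zero]; exact hc
  have hKs2 : star K = (c / (starRingEnd ℂ) c) • K := by
    have : star K = ((starRingEnd ℂ) c)⁻¹ • ((starRingEnd ℂ) c • star K) := by
      rw [smul_smul, inv_mul_cancel₀ hc', one_smul]
    rw [this, hK', smul_smul]
    congr 1
    field_simp
  have hn : ((‖τ‖ ^ 2 : ℝ) : ℂ) = τ * (starRingEnd ℂ) τ := by
    rw [Complex.mul_conj, Complex.normSq_eq_norm_sq]
  have h3 : star (N₁ + τ • (N₂ - N₁)) * (N₁ + τ • (N₂ - N₁)) -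
      (N₁ + τ • (N₂ - N₁)) * star (N₁ + τ • (N₂ - N₁)) =
      τ • K + (starRingEnd ℂ) τ • star K - (τ * (starRingEnd ℂ) τ) • (K + star K) := by
    rw [hKs, hKdef, star_add, star_smul, star_sub]
    have e3 : star τ = (starRingEnd ℂ) τ := rfl
    rw [e3]
    have e4 : (star N₁ + (starRingEnd ℂ) τ • (star N₂ - star N₁)) * (N₁ + τ • (N₂ - N₁)) =
        star N₁ * N₁ + τ • (star N₁ * N₂ - star N₁ * N₁) +
        (starRingEnd ℂ) τ • (star N₂ * N₁ - star N₁ * N₁) +
        (τ * (starRingEnd ℂ) τ) • (star N₂ * N₂ - star N₂ * N₁ - star N₁ * N₂ +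
          star N₁ * N₁) := by
      simp only [add_mul, mul_add, smul_mul_assoc, mul_smul_comm, sub_mul, mul_sub]
      module
    have e5 : (N₁ + τ • (N₂ - N₁)) * (star N₁ + (starRingEnd ℂ) τ • (star N₂ - star N₁)) =
        N₁ * star N₁ + τ • (N₂ * star N₁ - N₁ * star N₁) +
        (starRingEnd ℂ) τ • (N₁ * star N₂ - N₁ * star N₁) +
        (τ * (starRingEnd ℂ) τ) • (N₂ * star N₂ - N₁ * star N₂ - N₂ * star N₁ +
          N₁ * star N₁) := by
      simp only [add_mul, mul_add, smul_mul_assoc, mul_smul_comm, sub_mul, mul_sub]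
      module
    rw [e4, e5, e1, e2]
    module
  have h4 : τ • K + (starRingEnd ℂ) τ • star K - (τ * (starRingEnd ℂ) τ) • (K + star K) = 0 := by
    rw [hKs2]
    have e6 : τ • K + (starRingEnd ℂ) τ • (c / (starRingEnd ℂ) c) • K -
        (τ * (starRingEnd ℂ) τ) • (K + (c / (starRingEnd ℂ) c) • K) =
        ((τ * (starRingEnd ℂ) c + (starRingEnd ℂ) τ * c -
          (τ * (starRingEnd ℂ) τ) * ((starRingEnd ℂ) c + c)) / (starRingEnd ℂ) c) • K := by
      have e7 : ((τ * (starRingEnd ℂ) c + (starRingEnd ℂ) τ * c -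
          (τ * (starRingEnd ℂ) τ) * ((starRingEnd ℂ) c + c)) / (starRingEnd ℂ) c) =
          τ + (starRingEnd ℂ) τ * (c / (starRingEnd ℂ) c) -
          (τ * (starRingEnd ℂ) τ) * (1 + c / (starRingEnd ℂ) c) := by
        field_simp
      rw [e7]
      module
    have e8 : τ * (starRingEnd ℂ) c + (starRingEnd ℂ) τ * c -
          (τ * (starRingEnd ℂ) τ) * ((starRingEnd ℂ) c + c) = 0 := by
      rw [← hn]
      have a1 : τ * (starRingEnd ℂ) c + (starRingEnd ℂ) τ * c =
          ((2 * (τ * (starRingEnd ℂ) c).re : ℝ) : ℂ) := by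
        have := Complex.add_conj (τ * (starRingEnd ℂ) c)
        rw [map_mul, Complex.conj_conj] at this
        exact this
      have a2 : (starRingEnd ℂ) c + c = ((2 * c.re : ℝ) : ℂ) := by
        rw [add_comm]; exact Complex.add_conj c
      rw [a1, a2, hτ]
      push_cast
      ring
    rw [e6, e8, zero_div, zero_smul]
  rw [isStarNormal_iff]
  exact sub_eq_zero.1 (h3.trans h4)

/-- the arc -/
theorem arc (c : ℂ) (hc : c ≠ 0) : ∃ τ : ℝ → ℂ, τ 0 = 0 ∧ τ 1 = 1 ∧
    (∀ t, (τ t * (starRingEnd ℂ) c).re = ‖τ t‖ ^ 2 * c.re) ∧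
    ∀ s t, ‖τ t - τ s‖ ≤ Real.pi / 2 * |t - s| := by
  by_cases hr : c.re = 0
  · refine ⟨fun t => (t : ℂ), by simp, by simp, fun t => ?_, fun s t => ?_⟩
    · simp [hr]
    · rw [← Complex.ofReal_sub, Complex.norm_real, Real.norm_eq_abs]
      have h1 : 1 ≤ Real.pi / 2 := by linarith [Real.two_le_pi]
      have := abs_nonneg (t - s)
      nlinarith
  set a : ℂ := c / (2 * c.re) with ha
  have hrc : (c.re : ℂ) ≠ 0 := by exact_mod_cast hr
  have haa : a + (starRingEnd ℂ) a = 1 := by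
    rw [ha, map_div₀, map_mul, Complex.conj_ofReal, map_ofNat, ← add_div, Complex.add_conj]
    push_cast
    field_simp
  have hare : a.re = 1 / 2 := by
    have := congrArg Complex.re haa
    simp at this
    linarith
  have ha0 : a ≠ 0 := by
    intro h
    rw [h] at hare
    norm_num at hare
  have hna : 0 < ‖a‖ := norm_pos_iff.2 ha0
  set w : ℂ := -(starRingEnd ℂ) a / a with hw
  have hwn : ‖w‖ = 1 := by
    rw [hw, norm_div, norm_neg, RCLike.norm_conj, div_self hna.ne']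
  set ω : ℝ := w.arg with hω
  have hexp : Complex.exp (Complex.I * ω) = w := by
    have := Complex.norm_mul_exp_arg_mul_I w
    rw [hwn] at this
    rw [mul_comm Complex.I, hω]
    simpa using this
  have hchord : ‖a‖ * (2 * |Real.sin (ω / 2)|) = 1 := by
    have h1 : ‖Complex.exp (Complex.I * ω) - 1‖ = 2 * |Real.sin (ω / 2)| := by
      rw [Complex.norm_exp_I_mul_ofReal_sub_one, Real.norm_eq_abs, abs_mul]
      norm_num
    rw [← h1, ← norm_mul, hexp, hw]
    have h2 : a * (-(starRingEnd ℂ) a / a - 1) = -1 := by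
      have : (starRingEnd ℂ) a = 1 - a := by linear_combination haa
      rw [this]
      field_simp
      ring
    rw [h2, norm_neg, norm_one]
  have harc : ‖a‖ * |ω| ≤ Real.pi / 2 := by
    have h1 : |ω| ≤ Real.pi := Complex.abs_arg_le_pi w
    have h2 : 2 / Real.pi * (|ω| / 2) ≤ Real.sin (|ω| / 2) :=
      Real.mul_le_sin (by positivity) (by linarith)
    have h3 : Real.sin (|ω| / 2) ≤ |Real.sin (ω / 2)| := by
      rcases abs_cases ω with ⟨h, _⟩ | ⟨h, _⟩
      · rw [h]; exact le_abs_self _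
      · rw [h, neg_div, Real.sin_neg]
        exact neg_le_abs _
    have h4 : |ω| ≤ Real.pi * |Real.sin (ω / 2)| := by
      have h5 := h2.trans h3
      have h6 : 2 / Real.pi * (|ω| / 2) = |ω| / Real.pi := by ring
      rw [h6, div_le_iff₀ Real.pi_pos] at h5
      linarith
    calc ‖a‖ * |ω| ≤ ‖a‖ * (Real.pi * |Real.sin (ω / 2)|) := by gcongr
      _ = Real.pi / 2 * (‖a‖ * (2 * |Real.sin (ω / 2)|)) := by ring
      _ = _ := by rw [hchord, mul_one]
  refine ⟨fun t => a * (1 - Complex.exp (Complex.I * ((ω * t : ℝ) : ℂ))), ?_, ?_, ?_, ?_⟩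
  · simp
  · simp only [mul_one]
    rw [hexp, hw]
    have : (starRingEnd ℂ) a = 1 - a := by linear_combination haa
    rw [this]
    field_simp
    ring
  · intro t
    set E := Complex.exp (Complex.I * ((ω * t : ℝ) : ℂ)) with hE
    have hEn : E * (starRingEnd ℂ) E = 1 := by
      rw [Complex.mul_conj, Complex.normSq_eq_norm_sq, hE, mul_comm,
        Complex.norm_exp_ofReal_mul_I]
      norm_num
    have hca : c = 2 * c.re * a := by
      rw [ha]
      field_simp
    have h1 : (((a * (1 - E) * (starRingEnd ℂ) c).re : ℝ) : ℂ) * 2 =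
        ((‖a * (1 - E)‖ ^ 2 * c.re : ℝ) : ℂ) * 2 := by
      have h2 := Complex.add_conj (a * (1 - E) * (starRingEnd ℂ) c)
      have h3 : ((‖a * (1 - E)‖ ^ 2 : ℝ) : ℂ) = (a * (1 - E)) * (starRingEnd ℂ) (a * (1 - E)) := by
        rw [Complex.mul_conj, Complex.normSq_eq_norm_sq]
      rw [Complex.ofReal_mul, h3]
      have h4 : (((a * (1 - E) * (starRingEnd ℂ) c).re : ℝ) : ℂ) * 2 =
          ((2 * (a * (1 - E) * (starRingEnd ℂ) c).re : ℝ) : ℂ) := by push_cast; ring
      rw [h4, ← h2]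
      simp only [map_mul, map_sub, map_one, Complex.conj_conj]
      have h5 : (starRingEnd ℂ) c = 2 * c.re * (starRingEnd ℂ) a := by
        conv_lhs => rw [hca]
        rw [map_mul, map_mul, Complex.conj_ofReal, map_ofNat]
      rw [h5]
      conv_lhs => rw [show (starRingEnd ℂ) a * (1 - (starRingEnd ℂ) E) * c =
        (starRingEnd ℂ) a * (1 - (starRingEnd ℂ) E) * (2 * c.re * a) by rw [← hca]]
      linear_combination (-2 * c.re * a * (starRingEnd ℂ) a) * hEn
    have h6 : (a * (1 - E) * (starRingEnd ℂ) c).re * 2 = ‖a * (1 - E)‖ ^ 2 * c.re * 2 := by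
      exact_mod_cast h1
    linarith
  · intro s t
    have h1 : a * (1 - Complex.exp (Complex.I * ((ω * t : ℝ) : ℂ))) -
        a * (1 - Complex.exp (Complex.I * ((ω * s : ℝ) : ℂ))) =
        -a * Complex.exp (Complex.I * ((ω * s : ℝ) : ℂ)) *
          (Complex.exp (Complex.I * ((ω * (t - s) : ℝ) : ℂ)) - 1) := by
      have h2 : Complex.exp (Complex.I * ((ω * t : ℝ) : ℂ)) =
          Complex.exp (Complex.I * ((ω * s : ℝ) : ℂ)) *
            Complex.exp (Complex.I * ((ω * (t - s) : ℝ) : ℂ)) := by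
        rw [← Complex.exp_add]
        congr 1
        push_cast
        ring
      rw [h2]
      ring
    have h3 : ‖Complex.exp (Complex.I * ((ω * s : ℝ) : ℂ))‖ = 1 := by
      rw [mul_comm, Complex.norm_exp_ofReal_mul_I]
    rw [h1, norm_mul, norm_mul, norm_neg, h3, mul_one]
    have h4 : ‖Complex.exp (Complex.I * ((ω * (t - s) : ℝ) : ℂ)) - 1‖ ≤ ‖ω * (t - s)‖ :=
      Real.norm_exp_I_mul_ofReal_sub_one_le
    calc _ ≤ ‖a‖ * ‖ω * (t - s)‖ := by gcongr
      _ = ‖a‖ * |ω| * |t - s| := by rw [Real.norm_eq_abs, abs_mul]; ring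
      _ ≤ _ := by gcongr

/-- phase-locked pairs are joined by a short path -/
theorem locked_path {N₁ N₂ : H →L[ℂ] H} (h1 : IsStarNormal N₁) (h2 : IsStarNormal N₂) {c : ℂ}
    (hc : c ≠ 0) (hK : IsSelfAdjoint (c • (star N₁ * N₂ - N₂ * star N₁))) {M : ℝ}
    {τ₀ : (H →L[ℂ] H) →ₗ[ℂ] ℂ} (hD : Nuc (N₂ - N₁) M τ₀) :
    ∃ P : ℝ → H →L[ℂ] H, P 0 = N₁ ∧ P 1 = N₂ ∧ IsPath P (Real.pi / 2 * M) := by
  obtain ⟨τ, t0, t1, t2, t3⟩ := arc c hc
  have hM := hD.nonneg
  refine ⟨fun t => N₁ + τ t • (N₂ - N₁), ?_, ?_, ⟨by positivity, fun t _ => ?_, fun s _ t _ => ?_⟩⟩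
  · simp only [t0, zero_smul, add_zero]
  · simp only [t1, one_smul, add_sub_cancel]
  · exact normal_line h1 h2 hc hK (t2 t)
  · refine ⟨(τ t - τ s) • τ₀, ?_⟩
    have e1 : N₁ + τ t • (N₂ - N₁) - (N₁ + τ s • (N₂ - N₁)) = (τ t - τ s) • (N₂ - N₁) := by
      module
    simp only [e1]
    refine (hD.smul (τ t - τ s)).mono ?_
    calc ‖τ t - τ s‖ * M ≤ (Real.pi / 2 * |t - s|) * M := by gcongr; exact t3 s t
      _ = _ := by ring

end Pool.PN
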